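import Mathlib

set_option autoImplicit false

/-!
# Manipulability of the random `d`-ary single elimination bracket
-/

namespace Pool.Agent.Results.MP_5ab447_lc.LowerBound

open Finset

/-- A tournament on `N`: a complete oriented graph. -/
structure Tournament (N : Type) where
  /-- `beats x y`: the arc `x → y` is present -/
  beats : N → N → Prop
  irrefl : ∀ x, ¬ beats x x
  complete : ∀ x y, x ≠ y → (beats x y ↔ ¬ beats y x)

/-- `x` is a Condorcet winner of the set `X`. -/
def IsCondorcet {N : Type} (T : Tournament N) (X : Set N) (x : N) : Prop :=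
  x ∈ X ∧ ∀ y ∈ X, y ≠ x → T.beats x y

/-- The leaves of the complete `d`-ary tree of height `h`. -/
def Leaf (d : ℕ) : ℕ → Type
  | 0 => Unit
  | h + 1 => Fin d × Leaf d h

/-- The marks of the inner nodes of the complete `d`-ary tree of height `h`: the mark of the root
and the marks of the subtrees at its children. -/
def Marks (d : ℕ) : ℕ → Type
  | 0 => Unit
  | h + 1 => Fin d × (Fin d → Marks d h)

instance leafFintype (d : ℕ) : (h : ℕ) → Fintype (Leaf d h)
  | 0 => inferInstanceAs (Fintype Unit)
  | h + 1 => by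
      letI := leafFintype d h
      exact inferInstanceAs (Fintype (Fin d × Leaf d h))

instance leafDec (d : ℕ) : (h : ℕ) → DecidableEq (Leaf d h)
  | 0 => inferInstanceAs (DecidableEq Unit)
  | h + 1 => by
      letI := leafDec d h
      exact inferInstanceAs (DecidableEq (Fin d × Leaf d h))

instance marksFintype (d : ℕ) : (h : ℕ) → Fintype (Marks d h)
  | 0 => inferInstanceAs (Fintype Unit)
  | h + 1 => by
      letI := marksFintype d h
      exact inferInstanceAs (Fintype (Fin d × (Fin d → Marks d h)))

/-- The leaf `l` of the subtree at the child `a` of the root. -/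
def Leaf.cons {d h : ℕ} (a : Fin d) (l : Leaf d h) : Leaf d (h + 1) := (a, l)

/-- The mark of the root. -/
def Marks.top {d h : ℕ} (μ : Marks d (h + 1)) : Fin d := μ.1

/-- The marks of the subtree at the child `a` of the root. -/
def Marks.sub {d h : ℕ} (μ : Marks d (h + 1)) (a : Fin d) : Marks d h := μ.2 a

open Classical in
/-- The label of the root when the leaves carry the teams `f` and the inner nodes the marks `μ`:
the Condorcet winner of the labels of the children if there is one, else the label of the marked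
child. -/
noncomputable def label {N : Type} {d : ℕ} (T : Tournament N) :
    (h : ℕ) → (Leaf d h → N) → Marks d h → N
  | 0, f, _ => f ()
  | h + 1, f, μ =>
    if H : ∃ x, IsCondorcet T
        (Set.range fun a : Fin d => label T h (fun l => f (Leaf.cons a l)) (μ.sub a)) x
    then H.choose
    else label T h (fun l => f (Leaf.cons μ.top l)) (μ.sub μ.top)

open Classical in
/-- The probability that `x` wins under `RdSEB` (uniform placement of the teams on the leaves and
uniform marks). -/
noncomputable def rule (d h : ℕ) {N : Type} [Fintype N] (T : Tournament N) (x : N) : ℝ :=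
  ((univ.filter fun p : (Leaf d h ≃ N) × Marks d h => label T h p.1 p.2 = x).card : ℝ) /
    (Fintype.card ((Leaf d h ≃ N) × Marks d h) : ℝ)

/-- The probability that a member of `S` wins. -/
noncomputable def ruleSet (d h : ℕ) {N : Type} [Fintype N] (T : Tournament N)
    (S : Finset N) : ℝ := ∑ x ∈ S, rule d h T x

/-- `T` and `T'` agree on every match which is not between two members of `S`. -/
def Adjacent {N : Type} (S : Finset N) (T T' : Tournament N) : Prop :=
  ∀ x y, ¬ (x ∈ S ∧ y ∈ S) → (T.beats x y ↔ T'.beats x y)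

/-- The possible gains of coalitions of size at most `k` over all sizes `n = d ^ h`, `h ≥ 1`. -/
def gains (d k : ℕ) : Set ℝ :=
  {a | ∃ (h : ℕ) (N : Type) (_ : Fintype N) (T T' : Tournament N) (S : Finset N),
    1 ≤ h ∧ Fintype.card N = d ^ h ∧ S.card ≤ k ∧ Adjacent S T T' ∧
    a = ruleSet d h T' S - ruleSet d h T S}

/-- `α_{d,k}`. -/
noncomputable def alpha (d k : ℕ) : ℝ := sSup (gains d k)

/-! ### General facts -/

section General

variable {N : Type} {d : ℕ}

open Classical in
theorem label_succ (T : Tournament N) (h : ℕ) (f : Leaf d (h + 1) → N) (μ : Marks d (h + 1)) :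
    label T (h + 1) f μ = if H : ∃ x, IsCondorcet T
        (Set.range fun a : Fin d => label T h (fun l => f (Leaf.cons a l)) (μ.sub a)) x
    then H.choose
    else label T h (fun l => f (Leaf.cons μ.top l)) (μ.sub μ.top) := rfl

theorem label_zero (T : Tournament N) (f : Leaf d 0 → N) (μ : Marks d 0) :
    label T 0 f μ = f () := rfl

theorem IsCondorcet.unique {T : Tournament N} {X : Set N} {x y : N}
    (hx : IsCondorcet T X x) (hy : IsCondorcet T X y) : x = y := by
  by_contra hne
  exact (T.complete x y hne).1 (hx.2 y hy.1 (Ne.symm hne)) (hy.2 x hx.1 hne)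

open Classical in
theorem ruleSet_eq (d h : ℕ) [Fintype N] (T : Tournament N) (S : Finset N) :
    ruleSet d h T S =
      ((univ.filter fun p : (Leaf d h ≃ N) × Marks d h => label T h p.1 p.2 ∈ S).card : ℝ) /
        (Fintype.card ((Leaf d h ≃ N) × Marks d h) : ℝ) := by
  unfold ruleSet rule
  rw [← Finset.sum_div]
  congr 1
  have : (univ.filter fun p : (Leaf d h ≃ N) × Marks d h => label T h p.1 p.2 ∈ S) =
      S.biUnion fun x => univ.filter fun p : (Leaf d h ≃ N) × Marks d h =>
        label T h p.1 p.2 = x := by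
    ext p; simp
  rw [this, Finset.card_biUnion]
  · push_cast; rfl
  · intro x _ y _ hxy
    rw [Function.onFun, Finset.disjoint_left]
    intro p hp hq
    exact hxy ((Finset.mem_filter.1 hp).2.symm.trans (Finset.mem_filter.1 hq).2)

theorem ruleSet_eq' (d h : ℕ) [Fintype N] [inst : DecidableEq N] (T : Tournament N)
    (S : Finset N) :
    ruleSet d h T S =
      ((univ.filter fun p : (Leaf d h ≃ N) × Marks d h => label T h p.1 p.2 ∈ S).card : ℝ) /
        (Fintype.card ((Leaf d h ≃ N) × Marks d h) : ℝ) := by
  have e : inst = fun a b => Classical.propDecidable (a = b) := Subsingleton.elim _ _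
  subst e
  exact ruleSet_eq d h T S

theorem ruleSet_nonneg (d h : ℕ) [Fintype N] (T : Tournament N) (S : Finset N) :
    0 ≤ ruleSet d h T S := by
  rw [ruleSet_eq]; positivity

theorem ruleSet_le_one (d h : ℕ) [Fintype N] (T : Tournament N) (S : Finset N) :
    ruleSet d h T S ≤ 1 := by
  classical
  rw [ruleSet_eq]
  refine div_le_one_of_le₀ ?_ (by positivity)
  exact_mod_cast Finset.card_le_univ _

theorem gains_bdd (d k : ℕ) : BddAbove (gains d k) := by
  refine ⟨1, ?_⟩
  rintro a ⟨h, N, _, T, T', S, -, -, -, -, rfl⟩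
  have := ruleSet_nonneg d h T S
  have := ruleSet_le_one d h T' S
  linarith

theorem gains_mono {d k k' : ℕ} (h : k ≤ k') : gains d k ⊆ gains d k' := by
  rintro a ⟨i, N, inst, T, T', S, h1, h2, h3, h4, h5⟩
  exact ⟨i, N, inst, T, T', S, h1, h2, h3.trans h, h4, h5⟩

/-- Condorcet-consistency. -/
theorem label_condorcet (T : Tournament N) (w : N) (hw : ∀ y, y ≠ w → T.beats w y) :
    ∀ (h : ℕ) (f : Leaf d h → N) (μ : Marks d h), w ∈ Set.range f → label T h f μ = w
  | 0, f, μ, ⟨l, hl⟩ => by
    cases l
    exact hl
  | h + 1, f, μ, ⟨l, hl⟩ => by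
    obtain ⟨a, l⟩ := l
    have ih := label_condorcet T w hw h (fun l => f (Leaf.cons a l)) (μ.sub a) ⟨l, hl⟩
    have hc : IsCondorcet T (Set.range fun a : Fin d =>
        label T h (fun l => f (Leaf.cons a l)) (μ.sub a)) w := ⟨⟨a, ih⟩, fun y _ hy => hw y hy⟩
    have H : ∃ x, IsCondorcet T (Set.range fun a : Fin d =>
        label T h (fun l => f (Leaf.cons a l)) (μ.sub a)) x := ⟨w, hc⟩
    rw [label_succ, dif_pos H]
    exact H.choose_spec.unique hc

theorem ruleSet_condorcet (d h : ℕ) [Fintype N] (hN : Fintype.card N = d ^ h)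
    (T : Tournament N) (w : N) (hw : ∀ y, y ≠ w → T.beats w y) (hd : 0 < d) (S : Finset N)
    (hS : w ∈ S) : ruleSet d h T S = 1 := by
  classical
  have hcard : ∀ h, Fintype.card (Leaf d h) = d ^ h := by
    intro h
    induction h with
    | zero => exact Fintype.card_unit
    | succ h ih =>
      have : Fintype.card (Leaf d (h + 1)) = Fintype.card (Fin d × Leaf d h) := rfl
      rw [this, Fintype.card_prod, Fintype.card_fin, ih, pow_succ, mul_comm]
  have hmark : ∀ h, Nonempty (Marks d h) := by
    intro h
    induction h with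
    | zero => exact ⟨()⟩
    | succ h ih => exact ⟨(⟨0, hd⟩, fun _ => ih.some)⟩
  rw [ruleSet_eq]
  have h1 : (univ.filter fun p : (Leaf d h ≃ N) × Marks d h => label T h p.1 p.2 ∈ S) = univ := by
    ext p
    simp only [mem_filter, mem_univ, true_and, iff_true]
    rw [label_condorcet T w hw h p.1 p.2 (p.1.surjective w)]
    exact hS
  rw [h1, Finset.card_univ]
  have h2 : 0 < Fintype.card ((Leaf d h ≃ N) × Marks d h) := by
    rw [Fintype.card_pos_iff]
    obtain ⟨e⟩ := Fintype.card_eq.1 ((hcard h).trans hN.symm)
    exact ⟨(e, (hmark h).some)⟩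
  have h3 : (Fintype.card ((Leaf d h ≃ N) × Marks d h) : ℝ) ≠ 0 := by exact_mod_cast h2.ne'
  exact div_self h3

end General

/-! ### Height one -/

section One

variable {d : ℕ}

/-- Marks of a tree of height one. -/
def marksOne (d : ℕ) : Marks d 1 ≃ Fin d where
  toFun μ := μ.1
  invFun m := (m, fun _ => ())
  left_inv _ := rfl
  right_inv _ := rfl

/-- Leaves of a tree of height one. -/
def leafOne (d : ℕ) : Fin d ≃ Leaf d 1 where
  toFun m := (m, ())
  invFun l := l.1
  left_inv _ := rfl
  right_inv _ := rfl

theorem ruleSet_one {N : Type} [Fintype N] (hd : 0 < d) (hN : Fintype.card N = d)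
    (T : Tournament N) (hT : ∀ x, ¬ IsCondorcet T Set.univ x) (S : Finset N) :
    ruleSet d 1 T S = (S.card : ℝ) / d := by
  classical
  have hlab : ∀ (σ : Leaf d 1 ≃ N) (μ : Marks d 1), label T 1 σ μ = σ (leafOne d (marksOne d μ)) := by
    intro σ μ
    rw [label_succ]
    have hr : (Set.range fun a : Fin d => label T 0 (fun l => σ (Leaf.cons a l)) (μ.sub a)) =
        Set.univ := by
      rw [Set.eq_univ_iff_forall]
      intro x
      refine ⟨(leafOne d).symm (σ.symm x), ?_⟩
      have e : (fun a : Fin d => label T 0 (fun l => σ (Leaf.cons a l)) (μ.sub a))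
          ((leafOne d).symm (σ.symm x)) =
          σ (leafOne d ((leafOne d).symm (σ.symm x))) := rfl
      rw [e, Equiv.apply_symm_apply, Equiv.apply_symm_apply]
    rw [dif_neg]
    · rfl
    · rintro ⟨x, hx⟩
      rw [hr] at hx
      exact hT x hx
  rw [ruleSet_eq, Finset.card_filter, Fintype.sum_prod_type, Fintype.card_prod]
  have h1 : ∀ σ : Leaf d 1 ≃ N, (∑ μ : Marks d 1, if label T 1 (σ, μ).1 (σ, μ).2 ∈ S then 1 else 0)
      = S.card := by
    intro σ
    simp only [hlab]
    rw [Equiv.sum_comp (marksOne d) (fun m => if σ (leafOne d m) ∈ S then 1 else 0)]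
    have e := Equiv.sum_comp ((leafOne d).trans σ) (fun x => if x ∈ S then 1 else 0)
    simp only [Equiv.trans_apply] at e
    refine (Eq.trans ?_ e).trans ?_
    · congr!
    · simp
  rw [Finset.sum_congr rfl fun σ _ => h1 σ, Finset.sum_const, Finset.card_univ, smul_eq_mul,
    Fintype.card_congr (marksOne d), Fintype.card_fin]
  have h2 : 0 < Fintype.card (Leaf d 1 ≃ N) := by
    rw [Fintype.card_pos_iff]
    have : Fintype.card (Leaf d 1) = Fintype.card N := by
      rw [← Fintype.card_congr (leafOne d), Fintype.card_fin, hN]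
    exact Fintype.card_eq.1 this
  have h3 : (Fintype.card (Leaf d 1 ≃ N) : ℝ) ≠ 0 := by exact_mod_cast h2.ne'
  have h4 : (d : ℝ) ≠ 0 := by exact_mod_cast hd.ne'
  push_cast
  field_simp

/-- The tournament on `Fin d` in which the smaller team wins, except that `2` beats `1`, and
`1` beats `0` if `b = 1`. -/
def cyc (b d : ℕ) : Tournament (Fin d) where
  beats x y := (x.val = 1 ∧ y.val = 0 ∧ b = 1) ∨ (x.val = 0 ∧ y.val = 1 ∧ b ≠ 1) ∨
    (x.val = 2 ∧ y.val = 1) ∨
    (x.val < y.val ∧ ¬ (x.val = 0 ∧ y.val = 1) ∧ ¬ (x.val = 1 ∧ y.val = 2))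
  irrefl x := by omega
  complete x y h := by
    have h' : x.val ≠ y.val := fun e => h (Fin.ext e)
    omega

theorem gain_five (hd : 5 ≤ d) : 1 - 2 / (d : ℝ) ∈ gains d 2 := by
  have h0 : 0 < d := by omega
  let z0 : Fin d := ⟨0, by omega⟩
  let z1 : Fin d := ⟨1, by omega⟩
  let z2 : Fin d := ⟨2, by omega⟩
  refine ⟨1, Fin d, inferInstance, cyc 1 d, cyc 0 d, {z0, z1}, le_rfl, ?_, ?_, ?_, ?_⟩
  · rw [Fintype.card_fin, pow_one]
  · exact Finset.card_le_two
  · intro x y hxy
    simp only [cyc]
    have h1 : ¬ (x.val = 0 ∧ y.val = 1) := by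
      rintro ⟨ha, hb⟩
      apply hxy
      have e1 : x = z0 := Fin.ext ha
      have e2 : y = z1 := Fin.ext hb
      rw [e1, e2]; simp
    have h2 : ¬ (x.val = 1 ∧ y.val = 0) := by
      rintro ⟨ha, hb⟩
      apply hxy
      have e1 : x = z1 := Fin.ext ha
      have e2 : y = z0 := Fin.ext hb
      rw [e1, e2]; simp
    omega
  · rw [ruleSet_condorcet d 1 (by rw [Fintype.card_fin, pow_one]) (cyc 0 d) z0 ?_ h0 _
      (by simp), ruleSet_one h0 (Fintype.card_fin d) (cyc 1 d) ?_]
    · rw [Finset.card_pair (by simp [z0, z1])]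
      norm_num
    · rintro x ⟨-, hx⟩
      have hx0 : 0 ≠ x.val → (cyc 1 d).beats x z0 := fun h =>
        hx z0 (Set.mem_univ _) fun e => h (congrArg Fin.val e)
      have hx1 : 1 ≠ x.val → (cyc 1 d).beats x z1 := fun h =>
        hx z1 (Set.mem_univ _) fun e => h (congrArg Fin.val e)
      have hx2 : 2 ≠ x.val → (cyc 1 d).beats x z2 := fun h =>
        hx z2 (Set.mem_univ _) fun e => h (congrArg Fin.val e)
      simp only [cyc] at hx0 hx1 hx2
      have e0 : z0.val = 0 := rfl
      have e1 : z1.val = 1 := rfl
      have e2 : z2.val = 2 := rfl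
      omega
    · intro y hy
      have hy' : y.val ≠ 0 := fun e => hy (Fin.ext e)
      simp only [cyc]
      have e0 : z0.val = 0 := rfl
      omega

end One

/-! ### Height two: the tournament and its evaluation -/

section Two

/-- The core tournament on five teams `H, A, B, X, Y`: `X` and `Y` beat `A` and `B`, `H` beats
`X` and `Y`, `A` beats `B`, `X` beats `Y`; if `b` is false then `A` and `B` beat `H`, otherwise
`H` beats them. -/
def K (b : Bool) (i j : Fin 5) : Bool :=
  match i.val, j.val with
  | 0, 3 => true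
  | 0, 4 => true
  | 3, 1 => true
  | 3, 2 => true
  | 4, 1 => true
  | 4, 2 => true
  | 1, 0 => !b
  | 2, 0 => !b
  | 0, 1 => b
  | 0, 2 => b
  | 1, 2 => true
  | 3, 4 => true
  | _, _ => false

/-- The core team `x` beats the label `y` (`none` stands for the teams outside the core). -/
def dom (x : Fin 5) (y : Option (Fin 5)) : Bool :=
  match y with
  | none => true
  | some j => K false x j

/-- The core team `x` is a Condorcet winner of the labels `c`. -/
def isWin {k : ℕ} (c : Fin k → Option (Fin 5)) (x : Fin 5) : Bool :=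
  (List.ofFn c).any (fun y => y == some x) && (List.ofFn c).all (fun y => y == some x || dom x y)

/-- The Condorcet winner of the labels `c`, if it is in the core. -/
def winner {k : ℕ} (c : Fin k → Option (Fin 5)) : Option (Fin 5) :=
  (List.finRange 5).find? (fun x => isWin c x)

/-- The label is `H`, `A` or `B`. -/
def isS (o : Option (Fin 5)) : Bool :=
  match o with
  | none => false
  | some j => decide (j.val < 3)

/-- The number of marks of the root which make a member of `S` win. -/
def H (d : ℕ) (c : Fin d → Option (Fin 5)) : ℕ :=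
  match winner c with
  | some x => if isS (some x) then d else 0
  | none => ((List.ofFn c).filter isS).length

/-- The sum of `Φ` over the possible labels of a group with core members `C`. -/
def rowSum (d : ℕ) (C : List (Fin 5)) (Φ : Option (Fin 5) → ℕ) : ℕ :=
  match C.find? (fun x => C.all (fun y => y == x || K false x y)) with
  | some x => d * Φ (some x)
  | none => (C.map (fun x => Φ (some x))).sum + (d - C.length) * Φ none

/-- Iterated `rowSum`. -/
def nest (d : ℕ) : (k : ℕ) → (Fin k → List (Fin 5)) → ((Fin k → Option (Fin 5)) → ℕ) → ℕ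
  | 0, _, F => F Fin.elim0
  | k + 1, C, F => rowSum d (C 0) (fun o => nest d k (fun a => C a.succ) (fun c => F (Fin.cons o c)))

/-- The number of marks which make a member of `S` win, when the core team `i` is in group
`g i`. -/
def W (d : ℕ) (g : Fin 5 → Fin d) : ℕ :=
  nest d d (fun a => (List.finRange 5).filter (fun i => g i == a)) (H d)

/-- Sum over all placements of `m` teams, in terms of the groups only. -/
def Q (d : ℕ) : (m : ℕ) → ((Fin m → Fin d) → ℕ) → ℕ
  | 0, F => F Fin.elim0
  | m + 1, F => Q d m (fun g => ((List.finRange d).map fun t =>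
      (d - ((List.finRange m).filter (fun i => g i == t)).length) * F (Fin.cons t g)).sum)

theorem Q_three : Q 3 5 (W 3) = 562788 := by decide +kernel

theorem Q_four : Q 4 5 (W 4) = 227082240 := by decide +kernel

theorem K_irrefl : ∀ (b : Bool) (i : Fin 5), ¬ K b i i = true := by decide

theorem K_complete : ∀ (b : Bool) (i j : Fin 5), i ≠ j →
    (K b i j = true ↔ ¬ K b j i = true) := by decide

/-- The tournament: the core beats all other teams. -/
def coreT (b : Bool) (q : ℕ) : Tournament (Fin 5 ⊕ Fin q) where
  beats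
    | Sum.inl i, Sum.inl j => K b i j = true
    | Sum.inl _, Sum.inr _ => True
    | Sum.inr _, Sum.inl _ => False
    | Sum.inr a, Sum.inr b => a < b
  irrefl
    | Sum.inl i => K_irrefl b i
    | Sum.inr _ => lt_irrefl _
  complete
    | Sum.inl i, Sum.inl j => by
        intro h
        have h' : i ≠ j := fun e => h (by rw [e])
        exact K_complete b i j h'
    | Sum.inl _, Sum.inr _ => by simp
    | Sum.inr _, Sum.inl _ => by simp
    | Sum.inr a, Sum.inr c => by
        intro h
        have h' : a ≠ c := fun e => h (by rw [e])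
        simp only [not_lt]
        exact ⟨fun h => h.le, fun h => lt_of_le_of_ne h h'⟩

variable {d q : ℕ}

/-- The core label of a team. -/
def core (x : Fin 5 ⊕ Fin q) : Option (Fin 5) := Sum.elim some (fun _ => none) x

theorem core_eq_some {x : Fin 5 ⊕ Fin q} {i : Fin 5} : core x = some i ↔ x = Sum.inl i := by
  cases x <;> simp [core]

theorem isWin_iff {k : ℕ} (c' : Fin k → Fin 5 ⊕ Fin q) (i : Fin 5) :
    isWin (fun a => core (c' a)) i = true ↔
      IsCondorcet (coreT false q) (Set.range c') (Sum.inl i) := by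
  unfold isWin IsCondorcet
  rw [Bool.and_eq_true, List.any_eq_true, List.all_eq_true]
  simp only [List.mem_ofFn, Set.mem_range, Bool.or_eq_true, beq_iff_eq]
  constructor
  · rintro ⟨⟨_, ⟨a, rfl⟩, ha⟩, h⟩
    refine ⟨⟨a, core_eq_some.1 ha⟩, ?_⟩
    rintro y ⟨a', rfl⟩ hne
    rcases h _ ⟨a', rfl⟩ with h1 | h1
    · exact absurd (core_eq_some.1 h1) hne
    · cases hc : c' a' with
      | inl j => rw [hc] at h1; exact h1
      | inr j => trivial
  · rintro ⟨⟨a, ha⟩, h⟩
    refine ⟨⟨some i, ⟨a, core_eq_some.2 ha⟩, rfl⟩, ?_⟩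
    rintro _ ⟨a', rfl⟩
    by_cases hne : c' a' = Sum.inl i
    · exact Or.inl (core_eq_some.2 hne)
    · right
      have := h _ ⟨a', rfl⟩ hne
      cases hc : c' a' with
      | inl j => rw [hc] at this; exact this
      | inr j => rfl

theorem winner_iff {k : ℕ} (c' : Fin k → Fin 5 ⊕ Fin q) (i : Fin 5) :
    winner (fun a => core (c' a)) = some i ↔
      IsCondorcet (coreT false q) (Set.range c') (Sum.inl i) := by
  rw [← isWin_iff]
  constructor
  · intro h
    exact List.find?_some h
  · intro h
    unfold winner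
    cases hf : (List.finRange 5).find? (fun x => isWin (fun a => core (c' a)) x) with
    | none =>
      rw [List.find?_eq_none] at hf
      exact absurd h (hf i (List.mem_finRange i))
    | some j =>
      have hj : isWin (fun a => core (c' a)) j = true := List.find?_some hf
      rw [isWin_iff] at h hj
      exact congrArg some (Sum.inl_injective (hj.unique h))

theorem core_label (h : ℕ) (f : Leaf d (h + 1) → Fin 5 ⊕ Fin q) (μ : Marks d (h + 1)) :
    core (label (coreT false q) (h + 1) f μ) =
      (winner fun a => core (label (coreT false q) h (fun l => f (Leaf.cons a l)) (μ.sub a))).or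
        (core (label (coreT false q) h (fun l => f (Leaf.cons μ.top l)) (μ.sub μ.top))) := by
  rw [label_succ]
  set c' : Fin d → Fin 5 ⊕ Fin q := fun a =>
    label (coreT false q) h (fun l => f (Leaf.cons a l)) (μ.sub a) with hc'
  have key : ∀ i, (winner fun a => core (c' a)) = some i ↔
      IsCondorcet (coreT false q) (Set.range c') (Sum.inl i) := winner_iff c'
  by_cases hH : ∃ x, IsCondorcet (coreT false q) (Set.range c') x
  · rw [dif_pos hH]
    have hx := hH.choose_spec
    set x := hH.choose
    cases hx' : x with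
    | inl i =>
      rw [hx'] at hx
      rw [(key i).2 hx]
      rfl
    | inr b =>
      rw [hx'] at hx
      have hnone : (winner fun a => core (c' a)) = none := by
        cases hw : (winner fun a => core (c' a)) with
        | none => rfl
        | some j => exact absurd (((key j).1 hw).unique hx) (by simp)
      rw [hnone]
      have hm : core (c' μ.top) = none := by
        cases hcm : c' μ.top with
        | inl j =>
          have h1 := hx.2 (c' μ.top) ⟨μ.top, rfl⟩ (by rw [hcm]; simp)
          rw [hcm] at h1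
          exact absurd h1 (by simp [coreT])
        | inr j => rfl
      exact hm.symm
  · rw [dif_neg hH]
    have hnone : (winner fun a => core (c' a)) = none := by
      cases hw : (winner fun a => core (c' a)) with
      | none => rfl
      | some j => exact absurd ⟨_, (key j).1 hw⟩ hH
    rw [hnone]
    rfl

/-- The label of a node with child labels `r` and mark `m`. -/
def R {k : ℕ} (r : Fin k → Option (Fin 5)) (m : Fin k) : Option (Fin 5) := (winner r).or (r m)

/-- The leaf `m` of the group `a`. -/
def leafTwo (a m : Fin d) : Leaf d 2 := Leaf.cons a (Leaf.cons m ())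

/-- The core labels of the leaves. -/
def grid (σ : Leaf d 2 → Fin 5 ⊕ Fin q) (a m : Fin d) : Option (Fin 5) :=
  core (σ (leafTwo a m))

theorem core_label_two (σ : Leaf d 2 → Fin 5 ⊕ Fin q) (μ : Marks d 2) :
    core (label (coreT false q) 2 σ μ) =
      R (fun a => R (grid σ a) (μ.sub a).top) μ.top := by
  have h1 : ∀ (f : Leaf d 1 → Fin 5 ⊕ Fin q) (ν : Marks d 1),
      core (label (coreT false q) 1 f ν) = R (fun m => core (f (Leaf.cons m ()))) ν.top := by
    intro f ν
    rw [core_label 0 f ν]
    rfl
  rw [core_label 1 σ μ]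
  simp only [h1]
  rfl

theorem filter_ofFn {α : Type} (p : α → Bool) : ∀ (k : ℕ) (c : Fin k → α),
    ((List.ofFn c).filter p).length = ∑ m : Fin k, if p (c m) = true then 1 else 0
  | 0, c => by simp
  | k + 1, c => by
    rw [List.ofFn_succ, List.filter_cons, Fin.sum_univ_succ]
    have ih := filter_ofFn p k (fun i => c i.succ)
    split_ifs with h
    · rw [List.length_cons, ih]; ring
    · rw [ih]; ring

theorem H_eq (c : Fin d → Option (Fin 5)) :
    ∑ m : Fin d, (if isS (R c m) = true then 1 else 0) = H d c := by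
  unfold R H
  cases winner c with
  | none =>
    rw [filter_ofFn]
    rfl
  | some x =>
    have e : ∀ m : Fin d, (if isS ((some x).or (c m)) = true then 1 else 0) =
        if isS (some x) = true then 1 else 0 := fun m => rfl
    rw [Finset.sum_congr rfl fun m _ => e m, Finset.sum_const, Finset.card_univ,
      Fintype.card_fin, smul_eq_mul]
    by_cases hx : isS (some x) = true
    · simp [hx]
    · simp [hx]

theorem row_eq (r : Fin d → Option (Fin 5)) (p : Fin 5 → Bool)
    (hp : ∀ i, p i = true ↔ ∃ m, r m = some i)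
    (hinj : ∀ m m' i, r m = some i → r m' = some i → m = m')
    (Φ : Option (Fin 5) → ℕ) :
    ∑ m : Fin d, Φ (R r m) = rowSum d ((List.finRange 5).filter p) Φ := by
  have hfind : winner r = ((List.finRange 5).filter p).find? (fun x =>
      ((List.finRange 5).filter p).all (fun y => y == x || K false x y)) := by
    rw [List.find?_filter]
    unfold winner
    congr 1
    funext x
    rw [Bool.eq_iff_iff]
    unfold isWin
    simp only [Bool.and_eq_true, List.any_eq_true, List.all_eq_true, Bool.or_eq_true, beq_iff_eq,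
      List.mem_ofFn, decide_eq_true_eq, List.mem_filter, List.mem_finRange,
      true_and]
    constructor
    · rintro ⟨⟨_, ⟨m, rfl⟩, hm⟩, h⟩
      refine ⟨(hp x).2 ⟨m, hm⟩, fun y hy => ?_⟩
      obtain ⟨m', hm'⟩ := (hp y).1 hy
      rcases h _ ⟨m', rfl⟩ with h1 | h1
      · left
        rw [hm'] at h1
        exact Option.some.inj h1
      · right
        rw [hm'] at h1
        exact h1
    · rintro ⟨hx, h⟩
      obtain ⟨m, hm⟩ := (hp x).1 hx
      refine ⟨⟨_, ⟨m, rfl⟩, hm⟩, ?_⟩
      rintro _ ⟨m', rfl⟩
      cases hc : r m' with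
      | none => right; rfl
      | some y =>
        rcases h y ((hp y).2 ⟨m', hc⟩) with h1 | h1
        · left; rw [h1]
        · right; exact h1
  unfold R rowSum
  rw [← hfind]
  cases winner r with
  | some x =>
    simp only [Option.some_or, Finset.sum_const, Finset.card_univ, Fintype.card_fin, smul_eq_mul]
  | none =>
    simp only [Option.none_or]
    have e1 : ∀ Ψ : Option (Fin 5) → ℕ, ∑ m : Fin d, Ψ (r m) =
        (univ.filter fun m => r m = none).card * Ψ none +
          ∑ i : Fin 5, if p i = true then Ψ (some i) else 0 := by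
      intro Ψ
      have : ∀ m, Ψ (r m) = ∑ o : Option (Fin 5), if r m = o then Ψ o else 0 := by
        intro m; simp
      simp only [this]
      rw [Finset.sum_comm, Fintype.sum_option]
      congr 1
      · rw [← Finset.sum_filter, Finset.sum_const, smul_eq_mul]
      · refine Finset.sum_congr rfl fun i _ => ?_
        rw [← Finset.sum_filter, Finset.sum_const, smul_eq_mul]
        split_ifs with hi
        · obtain ⟨m, hm⟩ := (hp i).1 hi
          have : (univ.filter fun m => r m = some i) = {m} := by
            ext m'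
            simp only [mem_filter, mem_univ, true_and, mem_singleton]
            exact ⟨fun h => hinj _ _ i h hm, fun h => by rw [h]; exact hm⟩
          rw [this, Finset.card_singleton, one_mul]
        · have : (univ.filter fun m => r m = some i) = ∅ := by
            rw [Finset.filter_eq_empty_iff]
            intro m _ hm
            exact hi ((hp i).2 ⟨m, hm⟩)
          rw [this, Finset.card_empty, zero_mul]
    have e2 : ∀ f : Fin 5 → ℕ, (((List.finRange 5).filter p).map f).sum =
        ∑ i : Fin 5, if p i = true then f i else 0 := by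
      intro f
      have : ∀ l : List (Fin 5), ((l.filter p).map f).sum =
          (l.map fun i => if p i = true then f i else 0).sum := by
        intro l
        induction l with
        | nil => rfl
        | cons a l ih =>
          rw [List.filter_cons, List.map_cons, List.sum_cons]
          split_ifs with h
          · rw [List.map_cons, List.sum_cons, ih]
          · rw [ih, zero_add]
      rw [this, Fin.sum_univ_def]
    have e3 := e1 (fun _ => 1)
    have e4 := e2 (fun _ => 1)
    have e5 : ((List.finRange 5).filter p).length = ∑ i : Fin 5, if p i = true then 1 else 0 := by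
      rw [← e4]; simp
    rw [e1 Φ, e2]
    have e6 : (univ.filter fun m => r m = none).card =
        d - ((List.finRange 5).filter p).length := by
      rw [e5]
      simp only [Finset.sum_const, Finset.card_univ, Fintype.card_fin, smul_eq_mul,
        mul_one] at e3
      omega
    rw [e6]
    ring

theorem nest_eq : ∀ (k : ℕ) (r : Fin k → Fin d → Option (Fin 5)) (C : Fin k → List (Fin 5))
    (_ : ∀ a (Φ : Option (Fin 5) → ℕ), ∑ m : Fin d, Φ (R (r a) m) = rowSum d (C a) Φ)
    (F : (Fin k → Option (Fin 5)) → ℕ),
    ∑ ms : Fin k → Fin d, F (fun a => R (r a) (ms a)) = nest d k C F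
  | 0, r, C, _, F => by
    rw [Fintype.sum_unique]
    unfold nest
    congr 1
    funext a
    exact a.elim0
  | k + 1, r, C, hC, F => by
    rw [← Equiv.sum_comp (Fin.consEquiv fun _ => Fin d), Fintype.sum_prod_type]
    have h1 : ∀ (m : Fin d) (ms : Fin k → Fin d),
        (fun a => R (r a) ((Fin.consEquiv fun _ => Fin d) (m, ms) a)) =
          Fin.cons (R (r 0) m) (fun a => R (r a.succ) (ms a)) := by
      intro m ms
      funext a
      refine Fin.cases ?_ (fun a => ?_) a
      · rfl
      · rfl
    simp only [h1]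
    have h2 : ∀ o : Option (Fin 5), ∑ ms : Fin k → Fin d,
        F (Fin.cons o (fun a => R (r a.succ) (ms a))) =
        nest d k (fun a => C a.succ) (fun c => F (Fin.cons o c)) := fun o =>
      nest_eq k (fun a => r a.succ) (fun a => C a.succ) (fun a Φ => hC a.succ Φ)
        (fun c => F (Fin.cons o c))
    simp only [h2]
    rw [hC 0 (fun o => nest d k (fun a => C a.succ) (fun c => F (Fin.cons o c)))]
    rfl

/-- Marks of a tree of height two. -/
def marksTwo (d : ℕ) : Marks d 2 ≃ Fin d × (Fin d → Fin d) where
  toFun μ := (μ.top, fun a => (μ.sub a).top)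
  invFun p := (p.1, fun a => (p.2 a, fun _ => ()))
  left_inv _ := rfl
  right_inv _ := rfl

/-- The group of a leaf. -/
def grp (l : Leaf d 2) : Fin d := l.1

theorem V_eq (σ : Leaf d 2 ≃ Fin 5 ⊕ Fin q) :
    ∑ μ : Marks d 2, (if isS (core (label (coreT false q) 2 σ μ)) = true then 1 else 0) =
      W d (fun i => grp (σ.symm (Sum.inl i))) := by
  simp only [core_label_two]
  rw [← Equiv.sum_comp (marksTwo d).symm, Fintype.sum_prod_type, Finset.sum_comm]
  have h1 : ∀ ms : Fin d → Fin d, (∑ m : Fin d,
      if isS (R (fun a => R (grid σ a) (((marksTwo d).symm (m, ms)).sub a).top)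
        ((marksTwo d).symm (m, ms)).top) = true then 1 else 0) =
      H d (fun a => R (grid σ a) (ms a)) := by
    intro ms
    rw [← H_eq]
    rfl
  simp only [h1]
  unfold W
  refine nest_eq d (grid σ) _ (fun a Φ => ?_) (H d)
  have hg : ∀ (m : Fin d) (i : Fin 5), grid σ a m = some i ↔
      leafTwo a m = σ.symm (Sum.inl i) := by
    intro m i
    unfold grid
    rw [core_eq_some, Equiv.eq_symm_apply]
  refine row_eq (grid σ a) _ (fun i => ?_) (fun m m' i h h' => ?_) Φ
  · rw [beq_iff_eq]
    constructor
    · intro h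
      refine ⟨(σ.symm (Sum.inl i)).2.1, (hg _ i).2 ?_⟩
      rw [← h]
      rfl
    · rintro ⟨m, hm⟩
      show grp (σ.symm (Sum.inl i)) = a
      rw [← (hg m i).1 hm]
      rfl
  · have e := ((hg m i).1 h).trans ((hg m' i).1 h').symm
    exact congrArg (fun l : Leaf d 2 => l.2.1) e

/-! #### Summing over the placements -/

/-- Bijections as injections in the other direction. -/
noncomputable def equivEmb {L N : Type} [Fintype L] [Fintype N]
    (h : Fintype.card N = Fintype.card L) : (L ≃ N) ≃ (N ↪ L) where
  toFun σ := σ.symm.toEmbedding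
  invFun e := (Equiv.ofBijective e
    ((Fintype.bijective_iff_injective_and_card e).2 ⟨e.injective, h⟩)).symm
  left_inv σ := by
    ext l
    simp only [Equiv.coe_toEmbedding]
    rw [Equiv.symm_apply_eq]
    simp
  right_inv e := by
    ext x
    simp

theorem sum_equiv_eq {L : Type} [Fintype L] [DecidableEq L] (hL : Fintype.card L = 5 + q)
    (G : (Fin 5 → L) → ℕ) :
    ∑ σ : L ≃ Fin 5 ⊕ Fin q, G (fun i => σ.symm (Sum.inl i)) =
      q.factorial * ∑ f : Fin 5 ↪ L, G f := by
  have hN : Fintype.card (Fin 5 ⊕ Fin q) = Fintype.card L := by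
    rw [Fintype.card_sum, Fintype.card_fin, Fintype.card_fin, hL]
  have h1 : ∑ σ : L ≃ Fin 5 ⊕ Fin q, G (fun i => σ.symm (Sum.inl i)) =
      ∑ e : Fin 5 ⊕ Fin q ↪ L, G (fun i => e (Sum.inl i)) := by
    rw [← Equiv.sum_comp (equivEmb hN)]
    rfl
  rw [h1, ← Equiv.sum_comp (Equiv.sumEmbeddingEquivSigmaEmbeddingRestricted).symm,
    Fintype.sum_sigma, Finset.mul_sum]
  refine Finset.sum_congr rfl fun f _ => ?_
  have h2 : ∀ e : Fin q ↪ ↥(Set.range f)ᶜ,
      G (fun i => (Equiv.sumEmbeddingEquivSigmaEmbeddingRestricted.symm ⟨f, e⟩ :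
        Fin 5 ⊕ Fin q ↪ L) (Sum.inl i)) = G f := by
    intro e
    rfl
  rw [Finset.sum_congr rfl fun e _ => h2 e, Finset.sum_const, Finset.card_univ, smul_eq_mul]
  congr 1
  rw [Fintype.card_embedding_eq, Fintype.card_fin]
  have h3 : Fintype.card ↥(Set.range f)ᶜ = q := by
    rw [Fintype.card_compl_set, Set.card_range_of_injective f.injective, Fintype.card_fin, hL]
    omega
  rw [h3, Nat.descFactorial_self]

theorem sum_emb_eq {L : Type} [Fintype L] [DecidableEq L] (g : L → Fin d)
    (hg : ∀ t, (univ.filter fun l => g l = t).card = d) :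
    ∀ (m : ℕ) (F : (Fin m → Fin d) → ℕ), ∑ f : Fin m ↪ L, F (fun i => g (f i)) = Q d m F
  | 0, F => by
    rw [Fintype.sum_unique]
    unfold Q
    congr 1
    funext a
    exact a.elim0
  | m + 1, F => by
    unfold Q
    rw [← sum_emb_eq g hg m, ← Equiv.sum_comp (Equiv.embeddingFinSucc m L).symm,
      Fintype.sum_sigma]
    refine Finset.sum_congr rfl fun f _ => ?_
    have h1 : ∀ x : {i // i ∉ Set.range f},
        (fun i => g ((Equiv.embeddingFinSucc m L).symm ⟨f, x⟩ i)) =
          (Fin.cons (g x.1) (fun i => g (f i)) : Fin (m + 1) → Fin d) := by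
      intro x
      funext i
      rw [Equiv.coe_embeddingFinSucc_symm]
      refine Fin.cases ?_ (fun i => ?_) i <;> rfl
    simp only [h1]
    rw [← Fin.sum_univ_def]
    have h2 : ∀ Ψ : Fin d → ℕ, ∑ x : {i // i ∉ Set.range f}, Ψ (g x.1) =
        ∑ t : Fin d, (univ.filter fun x : {i // i ∉ Set.range f} => g x.1 = t).card * Ψ t := by
      intro Ψ
      have : ∀ x : {i // i ∉ Set.range f}, Ψ (g x.1) = ∑ t : Fin d, if g x.1 = t then Ψ t else 0 := by
        intro x; simp
      simp only [this]
      rw [Finset.sum_comm]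
      refine Finset.sum_congr rfl fun t _ => ?_
      rw [← Finset.sum_filter, Finset.sum_const, smul_eq_mul]
    rw [h2 (fun t => F (Fin.cons t (fun i => g (f i))))]
    refine Finset.sum_congr rfl fun t _ => ?_
    congr 1
    -- count the free leaves of the group `t`
    have h3 : (univ.filter fun x : {i // i ∉ Set.range f} => g x.1 = t).card =
        ((univ.filter fun l : L => g l = t) \ (univ.image f)).card := by
      refine Finset.card_bij (fun x _ => x.1) ?_ ?_ ?_
      · intro x hx
        simp only [mem_sdiff, mem_filter, mem_univ, true_and, mem_image] at hx ⊢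
        refine ⟨hx, ?_⟩
        rintro ⟨i, hi⟩
        exact x.2 ⟨i, hi⟩
      · intro x _ y _ h
        exact Subtype.ext h
      · intro l hl
        simp only [mem_sdiff, mem_filter, mem_univ, true_and, mem_image] at hl
        refine ⟨⟨l, ?_⟩, ?_, rfl⟩
        · rintro ⟨i, hi⟩
          exact hl.2 ⟨i, hi⟩
        · simp only [mem_filter, mem_univ, true_and]
          exact hl.1
    rw [h3, Finset.card_sdiff, hg t]
    congr 1
    have h4 : (univ.image f) ∩ (univ.filter fun l : L => g l = t) =
        (univ.filter fun i : Fin m => g (f i) = t).image f := by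
      ext l
      simp only [mem_inter, mem_image, mem_filter, mem_univ, true_and]
      constructor
      · rintro ⟨⟨i, rfl⟩, h⟩
        exact ⟨i, h, rfl⟩
      · rintro ⟨i, h, rfl⟩
        exact ⟨⟨i, rfl⟩, h⟩
    rw [h4, Finset.card_image_of_injective _ f.injective]
    have h5 : ∀ (p : Fin m → Bool), (univ.filter fun i => p i = true).card =
        ((List.finRange m).filter p).length := by
      intro p
      rw [Finset.card_filter, Fin.sum_univ_def]
      have : ∀ l : List (Fin m), (l.map fun i => if p i = true then 1 else 0).sum =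
          (l.filter p).length := by
        intro l
        induction l with
        | nil => rfl
        | cons a l ih =>
          rw [List.filter_cons, List.map_cons, List.sum_cons]
          split_ifs with h
          · rw [List.length_cons, ih]; ring
          · rw [ih, zero_add]
      rw [this]
    rw [← h5]
    congr 1
    ext i
    simp

theorem card_leaf (d : ℕ) : ∀ h, Fintype.card (Leaf d h) = d ^ h
  | 0 => Fintype.card_unit
  | h + 1 => by
    have : Fintype.card (Leaf d (h + 1)) = Fintype.card (Fin d × Leaf d h) := rfl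
    rw [this, Fintype.card_prod, Fintype.card_fin, card_leaf d h, pow_succ, mul_comm]

theorem card_marksTwo (d : ℕ) : Fintype.card (Marks d 2) = d ^ (d + 1) := by
  rw [Fintype.card_congr (marksTwo d), Fintype.card_prod, Fintype.card_fun, Fintype.card_fin,
    pow_succ, mul_comm]

theorem grp_fiber (t : Fin d) : (univ.filter fun l : Leaf d 2 => grp l = t).card = d := by
  have h : (univ.filter fun l : Leaf d 2 => grp l = t) =
      univ.map ⟨fun m : Fin d => leafTwo t m, fun a b h =>
        congrArg (fun l : Leaf d 2 => l.2.1) h⟩ := by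
    ext l
    simp only [mem_filter, mem_univ, true_and, mem_map]
    constructor
    · intro h
      refine ⟨l.2.1, ?_⟩
      rw [← h]
      rfl
    · rintro ⟨m, rfl⟩
      rfl
  rw [h, Finset.card_map, Finset.card_univ, Fintype.card_fin]

/-- The coalition `{H, A, B}`. -/
def SS (q : ℕ) : Finset (Fin 5 ⊕ Fin q) := {Sum.inl 0, Sum.inl 1, Sum.inl 2}

theorem mem_SS {x : Fin 5 ⊕ Fin q} : x ∈ SS q ↔ isS (core x) = true := by
  cases x with
  | inl i =>
    have : ∀ i : Fin 5, (i = 0 ∨ i = 1 ∨ i = 2) ↔ isS (some i) = true := by decide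
    rw [← show some i = core (Sum.inl i : Fin 5 ⊕ Fin q) from rfl, ← this i]
    simp [SS]
  | inr j => simp [SS, core, isS]

theorem ruleSet_two (hq : d ^ 2 = 5 + q) :
    ruleSet d 2 (coreT false q) (SS q) =
      ((q.factorial * Q d 5 (W d) : ℕ) : ℝ) / (((5 + q).factorial * d ^ (d + 1) : ℕ) : ℝ) := by
  have hcL : Fintype.card (Leaf d 2) = 5 + q := by rw [card_leaf, hq]
  rw [ruleSet_eq', Finset.card_filter, Fintype.sum_prod_type, Fintype.card_prod]
  have h1 : ∀ σ : Leaf d 2 ≃ Fin 5 ⊕ Fin q, (∑ μ : Marks d 2,
      if label (coreT false q) 2 (σ, μ).1 (σ, μ).2 ∈ SS q then 1 else 0) =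
      W d (fun i => grp (σ.symm (Sum.inl i))) := by
    intro σ
    rw [← V_eq σ]
    refine Finset.sum_congr rfl fun μ _ => ?_
    simp only [mem_SS]
  have h2 : ∑ σ : Leaf d 2 ≃ Fin 5 ⊕ Fin q, W d (fun i => grp (σ.symm (Sum.inl i))) =
      q.factorial * Q d 5 (W d) := by
    have h3 := sum_equiv_eq (q := q) hcL (fun f => W d (fun i => grp (f i)))
    have h4 := sum_emb_eq (d := d) (L := Leaf d 2) grp (fun t => grp_fiber t) 5 (W d)
    rw [← h4]
    exact h3
  have h5 : Fintype.card (Leaf d 2 ≃ Fin 5 ⊕ Fin q) = (5 + q).factorial := by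
    have : Nonempty (Leaf d 2 ≃ Fin 5 ⊕ Fin q) := by
      refine Fintype.card_eq.1 ?_
      rw [hcL, Fintype.card_sum, Fintype.card_fin, Fintype.card_fin]
    obtain ⟨e⟩ := this
    rw [Fintype.card_equiv e, hcL]
  have h6 : (∑ σ : Leaf d 2 ≃ Fin 5 ⊕ Fin q, ∑ μ : Marks d 2,
      if label (coreT false q) 2 (σ, μ).1 (σ, μ).2 ∈ SS q then 1 else 0) =
      q.factorial * Q d 5 (W d) := by
    rw [← h2]
    exact Finset.sum_congr rfl fun σ _ => h1 σ
  rw [h6, h5, card_marksTwo]

theorem adjacent_core : Adjacent (SS q) (coreT false q) (coreT true q) := by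
  intro x y hxy
  cases x with
  | inl i =>
    cases y with
    | inl j =>
      have key : ∀ i j : Fin 5, ¬ (isS (some i) = true ∧ isS (some j) = true) →
          (K false i j = true ↔ K true i j = true) := by decide
      refine key i j ?_
      rintro ⟨h1, h2⟩
      exact hxy ⟨mem_SS.2 h1, mem_SS.2 h2⟩
    | inr j => exact Iff.rfl
  | inr i =>
    cases y with
    | inl j => exact Iff.rfl
    | inr j => exact Iff.rfl

theorem core_condorcet (y : Fin 5 ⊕ Fin q) (hy : y ≠ Sum.inl 0) :
    (coreT true q).beats (Sum.inl 0) y := by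
  cases y with
  | inl j =>
    have key : ∀ j : Fin 5, j ≠ 0 → K true 0 j = true := by decide
    exact key j fun e => hy (by rw [e])
  | inr j => trivial

theorem gain_two (hd : 0 < d) (hq : d ^ 2 = 5 + q) :
    1 - ((q.factorial * Q d 5 (W d) : ℕ) : ℝ) / (((5 + q).factorial * d ^ (d + 1) : ℕ) : ℝ) ∈
      gains d 3 := by
  refine ⟨2, Fin 5 ⊕ Fin q, inferInstance, coreT false q, coreT true q, SS q, by norm_num, ?_,
    ?_, adjacent_core, ?_⟩
  · rw [Fintype.card_sum, Fintype.card_fin, Fintype.card_fin, hq]
  · exact Finset.card_le_three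
  · rw [ruleSet_condorcet d 2 (by rw [Fintype.card_sum, Fintype.card_fin, Fintype.card_fin, hq])
      (coreT true q) (Sum.inl 0) core_condorcet hd (SS q) (by simp [SS]), ruleSet_two hq]

end Two

/-- **Positive answer to Q1**: `α_{d,k} ≥ 227/420` for all `3 ≤ k ≤ d`. Moreover
`α_{4,k} ≥ 15/26` and `α_{d,k} ≥ 1 - 2/d` for `d ≥ 5`. -/
theorem result : (∀ k d : ℕ, 3 ≤ k → k ≤ d → (227 / 420 : ℝ) ≤ alpha d k) ∧
    (∀ k : ℕ, 3 ≤ k → k ≤ 4 → (15 / 26 : ℝ) ≤ alpha 4 k) ∧
    ∀ k d : ℕ, 2 ≤ k → k ≤ d → 5 ≤ d → 1 - 2 / (d : ℝ) ≤ alpha d k := by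
  have h3 : ∀ k, 3 ≤ k → (227 / 420 : ℝ) ≤ alpha 3 k := by
    intro k hk
    refine le_csSup (gains_bdd 3 k) (gains_mono hk ?_)
    have h := gain_two (d := 3) (q := 4) (by norm_num) (by norm_num)
    rw [Q_three] at h
    convert h using 1
    norm_num [Nat.factorial]
  have h4 : ∀ k, 3 ≤ k → (15 / 26 : ℝ) ≤ alpha 4 k := by
    intro k hk
    refine le_csSup (gains_bdd 4 k) (gains_mono hk ?_)
    have h := gain_two (d := 4) (q := 11) (by norm_num) (by norm_num)
    rw [Q_four] at h
    convert h using 1
    norm_num [Nat.factorial]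
  have h5 : ∀ k d : ℕ, 2 ≤ k → 5 ≤ d → 1 - 2 / (d : ℝ) ≤ alpha d k := fun k d hk hd =>
    le_csSup (gains_bdd d k) (gains_mono hk (gain_five hd))
  refine ⟨fun k d hk hkd => ?_, fun k hk _ => h4 k hk, fun k d hk _ hd => h5 k d hk hd⟩
  rcases Nat.lt_or_ge d 5 with hd | hd
  · have : d = 3 ∨ d = 4 := by omega
    rcases this with rfl | rfl
    · exact h3 k hk
    · refine le_trans ?_ (h4 k hk)
      norm_num
  · refine le_trans ?_ (h5 k d (by omega) hd)
    have hd' : (5 : ℝ) ≤ d := by exact_mod_cast hd
    have : 2 / (d : ℝ) ≤ 2 / 5 := div_le_div_of_nonneg_left (by norm_num) (by norm_num) hd'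
    linarith

end Pool.Agent.Results.MP_5ab447_lc.LowerBound
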